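import Pool.Agent.Lib.MP_b5021c_nt.IfaceL2

/-!
# MP_b5021c_nt, row CLO: one closing
-/

namespace Pool.Agent.B5.Clo

open scoped LaurentPolynomial

theorem one_le_prod {ι : Type} (f : ι → ℝ) (s : Finset ι) (h : ∀ i ∈ s, 1 ≤ f i) :
    1 ≤ ∏ i ∈ s, f i := by
  classical
  induction s using Finset.induction_on with
  | empty => simp
  | insert a s ha ih =>
    rw [Finset.prod_insert ha]
    have h1 := h a (Finset.mem_insert_self a s)
    have h2 := ih fun i hi => h i (Finset.mem_insert_of_mem hi)
    nlinarith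

section

variable {O : Type} [CommRing O] [IsDomain O] [IsPrincipalIdealRing O] [Coef O]

theorem m_one (mm : MmulS) : M (1 : RO O) = 1 := (mm O).2.2 1 isUnit_one

theorem classV_prod (e1 : E1S) (mv : MVS) (mm : MmulS) {ι : Type} (f : ι → RO O) (s : Finset ι) :
    ∀ N : ℝ, ClassV N (∏ i ∈ s, f i) →
      (∀ i ∈ s, ClassV (M (f i)) (f i)) ∧ N = ∏ i ∈ s, M (f i) := by
  classical
  induction s using Finset.induction_on with
  | empty =>
    intro N hN
    rw [Finset.prod_empty] at hN
    refine ⟨fun i hi => absurd hi (Finset.notMem_empty i), ?_⟩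
    rw [Finset.prod_empty, ← ((mv O).1 N 1 hN).2, m_one mm]
  | insert a s ha ih =>
    intro N hN
    rw [Finset.prod_insert ha] at hN
    obtain ⟨N₁, N₂, h1, h2, rfl⟩ := (e1 O).1 N _ _ hN
    obtain ⟨h3, h4⟩ := ih N₂ h2
    have h5 := ((mv O).1 N₁ (f a) h1).2
    refine ⟨fun i hi => ?_, ?_⟩
    · rcases Finset.mem_insert.1 hi with rfl | hi
      · rw [h5]; exact h1
      · exact h3 i hi
    · rw [Finset.prod_insert ha, h5, h4]

theorem classP_prod (e1 : E1S) (mv : MVS) (mm : MmulS) {ι : Type} [DecidableEq ι] (f : ι → RO O)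
    (s : Finset ι) : ∀ θ : ℝ, ClassP θ (∏ i ∈ s, f i) →
      ∃ i ∈ s, ClassP θ (f i) ∧ ∀ j ∈ s, j ≠ i → ClassV 1 (f j) := by
  induction s using Finset.induction_on with
  | empty =>
    intro θ hθ
    exfalso
    rw [Finset.prod_empty] at hθ
    have h1 := ((mv O).2 θ 1 hθ).2
    rw [m_one mm] at h1
    have h2 := hθ.1
    linarith
  | insert a s ha ih =>
    intro θ hθ
    rw [Finset.prod_insert ha] at hθ
    rcases (e1 O).2 θ _ _ hθ with ⟨h1, h2⟩ | ⟨h1, h2⟩
    · refine ⟨a, Finset.mem_insert_self a s, h1, fun j hj hja => ?_⟩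
      have hj' : j ∈ s := (Finset.mem_insert.1 hj).resolve_left hja
      obtain ⟨h3, h4⟩ := classV_prod e1 mv mm f s 1 h2
      have h5 : ∀ i ∈ s, 1 ≤ M (f i) := fun i hi => (h3 i hi).1
      have h6 : M (f j) = 1 := by
        have h7 : M (f j) ≤ ∏ i ∈ s, M (f i) := by
          rw [← Finset.mul_prod_erase s _ hj']
          refine le_mul_of_one_le_right (by linarith [h5 j hj']) ?_
          exact one_le_prod (fun i => M (f i)) _ (fun i hi => h5 i (Finset.mem_of_mem_erase hi))
        rw [← h4] at h7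
        linarith [h5 j hj']
      rw [← h6]
      exact h3 j hj'
    · obtain ⟨i, hi, h3, h4⟩ := ih θ h2
      refine ⟨i, Finset.mem_insert_of_mem hi, h3, fun j hj hji => ?_⟩
      rcases Finset.mem_insert.1 hj with rfl | hj
      · exact h1
      · exact h4 j hj hji

end

theorem clo (fd : FDS) (g1 : G1S) (g3 : G3S) (g4 : G4S) (e1 : E1S) (mv : MVS) (mm : MmulS) :
    CLOS := by
  classical
  intro O _ _ _ _ P L _ _ _ _ _ phi D S i0 eta h hcc
  obtain ⟨c, n, G, hF⟩ := fd O P L phi D S i0 eta h hcc
  have hg1 := g1 O P L phi D S i0 eta h c n G hF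
  have hg3 := g3 O P L phi D S i0 eta h c n G hF
  have hg4 := g4 O P L phi D S i0 eta h c n G hF
  have hg1' : (rk (supp (cl (co phi i0) S h eta D)) : ℝ) ≤
      ∑ i ∈ big G, (rk (supp (G i)) : ℝ) + ((snp phi S i0 G).card : ℝ) + 1 := by
    exact_mod_cast hg1
  constructor
  · intro N hN B hB hB1 hBd
    rw [hF.v00] at hN
    obtain ⟨Nc, Np, h1, h2, hNN⟩ := (e1 O).1 N _ _ hN
    obtain ⟨h3, h4⟩ := classV_prod e1 mv mm (fun i => (G i).coeff 0) Finset.univ Np h2
    have hone : ∀ i, 1 ≤ M ((G i).coeff 0) := fun i => (h3 i (Finset.mem_univ i)).1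
    have hsub : ∀ s : Finset (Fin n), ∏ i ∈ s, M ((G i).coeff 0) ≤ N := by
      intro s
      have h5 : ∏ i ∈ s, M ((G i).coeff 0) ≤ ∏ i, M ((G i).coeff 0) := by
        rw [← Finset.prod_sdiff (Finset.subset_univ s), mul_comm]
        refine le_mul_of_one_le_right ?_ ?_
        · exact zero_le_one.trans (one_le_prod (fun i => M ((G i).coeff 0)) s fun i _ => hone i)
        · exact one_le_prod (fun i => M ((G i).coeff 0)) _ fun i _ => hone i
      have h6 : 1 ≤ Nc := h1.1
      have h7 : 0 ≤ Np := by linarith [h2.1]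
      rw [← h4] at h5
      rw [hNN]
      nlinarith
    refine ⟨(big G).card, fun k => M ((G ((big G).equivFin.symm k)).coeff 0),
      (snp phi S i0 G).card, ?_, ?_, ?_, ?_⟩
    · intro k
      have hk := ((big G).equivFin.symm k).2
      unfold big at hk
      rw [Finset.mem_filter] at hk
      exact ⟨hk.2, _, h3 _ (Finset.mem_univ _)⟩
    · have h5 : ∏ k : Fin (big G).card, M ((G ((big G).equivFin.symm k)).coeff 0) =
          ∏ i ∈ big G, M ((G i).coeff 0) := by
        rw [← Finset.prod_coe_sort (big G)]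
        exact (big G).equivFin.symm.prod_comp fun i : (big G) => M ((G i).coeff 0)
      rw [h5]
      exact hsub _
    · have h5 : ∏ k : Fin (big G).card, M ((G ((big G).equivFin.symm k)).coeff 0) =
          ∏ i ∈ big G, M ((G i).coeff 0) := by
        rw [← Finset.prod_coe_sort (big G)]
        exact (big G).equivFin.symm.prod_comp fun i : (big G) => M ((G i).coeff 0)
      rw [h5]
      exact hg3
    · have h5 : ∑ k : Fin (big G).card, B (M ((G ((big G).equivFin.symm k)).coeff 0)) =
          ∑ i ∈ big G, B (M ((G i).coeff 0)) := by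
        rw [← Finset.sum_coe_sort (big G)]
        exact (big G).equivFin.symm.sum_comp fun i : (big G) => B (M ((G i).coeff 0))
      rw [h5]
      have h6 : ∑ i ∈ big G, (rk (supp (G i)) : ℝ) ≤ ∑ i ∈ big G, B (M ((G i).coeff 0)) := by
        refine Finset.sum_le_sum fun i _ => ?_
        refine (hg4 i).1 (M ((G i).coeff 0)) _ (h3 i (Finset.mem_univ i)) (hB1 _) ?_
        intro N' hN' P' L' _ _ _ _ _ phi' D' hD' hcl
        have h7 : M ((G i).coeff 0) ≤ N := by
          have := hsub {i}
          rwa [Finset.prod_singleton] at this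
        exact (hBd N' (hN'.trans h7) P' L' phi' D' hD' hcl).trans (hB hN')
      linarith
  · intro θ' hθ C hC hBd
    refine ⟨(snp phi S i0 G).card, ?_⟩
    rw [hF.v00] at hθ
    rcases (e1 O).2 θ' _ _ hθ with ⟨h1, h2⟩ | ⟨h1, h2⟩
    · left
      obtain ⟨h3, h4⟩ := classV_prod e1 mv mm (fun i => (G i).coeff 0) Finset.univ 1 h2
      have hone : ∀ i, 1 ≤ M ((G i).coeff 0) := fun i => (h3 i (Finset.mem_univ i)).1
      have hall : ∀ i, M ((G i).coeff 0) = 1 := by
        intro i
        have h7 : M ((G i).coeff 0) ≤ ∏ i, M ((G i).coeff 0) := by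
          rw [← Finset.mul_prod_erase Finset.univ _ (Finset.mem_univ i)]
          refine le_mul_of_one_le_right (by linarith [hone i]) ?_
          exact one_le_prod (fun i => M ((G i).coeff 0)) _ (fun i _ => hone i)
        rw [← h4] at h7
        linarith [hone i]
      have hbig : big G = ∅ := by
        unfold big
        rw [Finset.filter_eq_empty_iff]
        intro i _ hi
        rw [hall i] at hi
        exact lt_irrefl _ hi
      rw [hbig, Finset.prod_empty, mul_one] at hg3
      rw [hbig, Finset.sum_empty] at hg1'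
      exact ⟨hg3, by linarith⟩
    · right
      obtain ⟨i, _, h3, h4⟩ := classP_prod e1 mv mm (fun i => (G i).coeff 0) Finset.univ θ' h2
      have hMi : M ((G i).coeff 0) = θ' := ((mv O).2 θ' _ h3).2
      have hbig : big G = {i} := by
        unfold big
        ext j
        rw [Finset.mem_filter, Finset.mem_singleton]
        constructor
        · rintro ⟨_, hj⟩
          by_contra hji
          have h5 := ((mv O).1 1 _ (h4 j (Finset.mem_univ j) hji)).2
          rw [h5] at hj
          exact lt_irrefl _ hj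
        · rintro rfl
          exact ⟨Finset.mem_univ _, by rw [hMi]; exact h3.1⟩
      rw [hbig, Finset.prod_singleton, hMi] at hg3
      rw [hbig, Finset.sum_singleton] at hg1'
      have h5 := (hg4 i).2 θ' C h3 hC hBd
      exact ⟨hg3, by linarith⟩

end Pool.Agent.B5.Clo
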