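import Pool.Agent.Lib.MP_b5021c_nt.IfaceB

/-!
# MP_b5021c_nt, row KEV: elements vanishing at a common point have a common non-unit divisor
-/

namespace Pool.Agent.B5.Kev

open Polynomial
open scoped LaurentPolynomial

noncomputable section

theorem emb_inj {O : Type} [CommRing O] [Coef O] : Function.Injective (Coef.emb : O →+* ℂ) := by
  rw [injective_iff_map_eq_zero]
  intro x hx
  by_contra h
  have := Coef.one_le x h
  rw [hx, norm_zero] at this
  linarith

/-- The polynomial version: `g` divides everything that vanishes at `z`. -/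
theorem poly {O : Type} [CommRing O] [IsDomain O] [IsPrincipalIdealRing O] [Coef O] (z : ℂ)
    (p : O[X]) (hp : p ≠ 0) (hpz : p.eval₂ (Coef.emb : O →+* ℂ) z = 0) :
    ∃ g : O[X], g.eval₂ (Coef.emb : O →+* ℂ) z = 0 ∧
      ∀ f : O[X], f.eval₂ (Coef.emb : O →+* ℂ) z = 0 → g ∣ f := by
  classical
  set P : Ideal O[X] := RingHom.ker (Polynomial.eval₂RingHom (Coef.emb : O →+* ℂ) z) with hP
  have hmem : ∀ f : O[X], f ∈ P ↔ f.eval₂ (Coef.emb : O →+* ℂ) z = 0 := fun f => by
    rw [hP, RingHom.mem_ker]; rfl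
  have hprime : P.IsPrime := RingHom.ker_isPrime _
  have hbot : P ≠ ⊥ := by
    intro h
    have : p ∈ P := (hmem p).2 hpz
    rw [h, Ideal.mem_bot] at this
    exact hp this
  obtain ⟨g, hgP, hg⟩ := hprime.exists_mem_prime_of_ne_bot hbot
  have hgz := (hmem g).1 hgP
  have hdeg : 0 < g.natDegree := by
    by_contra h
    have h0 : g.natDegree = 0 := by omega
    rw [Polynomial.eq_C_of_natDegree_eq_zero h0, Polynomial.eval₂_C] at hgz
    have := (injective_iff_map_eq_zero _).1 emb_inj _ hgz
    apply hg.ne_zero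
    rw [Polynomial.eq_C_of_natDegree_eq_zero h0, this, map_zero]
  have hprim : g.IsPrimitive := hg.irreducible.isPrimitive hdeg.ne'
  have hirr : Irreducible (g.map (algebraMap O (FractionRing O))) :=
    (hprim.irreducible_iff_irreducible_map_fraction_map (K := FractionRing O)).1 hg.irreducible
  obtain ⟨e, he1⟩ : ∃ e : FractionRing O →+* ℂ, ∀ x : O, e (algebraMap O (FractionRing O) x) =
      (Coef.emb : O →+* ℂ) x :=
    ⟨IsFractionRing.lift (K := FractionRing O) (emb_inj (O := O)),
      fun x => IsFractionRing.lift_algebraMap _ x⟩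
  have he : ∀ f : O[X], (f.map (algebraMap O (FractionRing O))).eval₂ e z =
      f.eval₂ (Coef.emb : O →+* ℂ) z := by
    intro f
    rw [Polynomial.eval₂_map]
    have : e.comp (algebraMap O (FractionRing O)) = (Coef.emb : O →+* ℂ) := RingHom.ext he1
    rw [this]
  refine ⟨g, hgz, fun f hf => ?_⟩
  apply hprim.dvd_of_fraction_map_dvd_fraction_map (K := FractionRing O)
  by_contra hnd
  obtain ⟨a, b, hab⟩ := (hirr.coprime_iff_not_dvd).2 hnd
  have := congrArg (Polynomial.eval₂ e z) hab
  rw [Polynomial.eval₂_add, Polynomial.eval₂_mul, Polynomial.eval₂_mul, he, he, hgz, hf,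
    Polynomial.eval₂_one] at this
  simp at this

theorem kev : KerEvS := by
  intro O _ _ _ _ z s hs hz
  obtain ⟨q, hq, hq0⟩ := hs
  have key : ∀ f : RO O, evR z f = 0 → ∃ (n : ℕ) (f' : O[X]),
      Polynomial.toLaurent f' = f * LaurentPolynomial.T n ∧
      f'.eval₂ (Coef.emb : O →+* ℂ) (z : ℂ) = 0 := by
    intro f hf
    obtain ⟨n, f', h⟩ := LaurentPolynomial.exists_T_pow f
    refine ⟨n, f', h, ?_⟩
    have h2 : evR z (Polynomial.toLaurent f') = 0 := by rw [h, map_mul, hf, zero_mul]
    unfold evR at h2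
    rw [LaurentPolynomial.eval₂_toLaurent] at h2
    exact h2
  obtain ⟨n, q', hq', hqz⟩ := key q (hz q hq)
  have hq'0 : q' ≠ 0 := by
    rintro rfl
    rw [map_zero] at hq'
    rcases mul_eq_zero.1 hq'.symm with h | h
    · exact hq0 h
    · exact (LaurentPolynomial.isUnit_T (R := O) (n : ℤ)).ne_zero h
  obtain ⟨g, hg, hdvd⟩ := poly (z : ℂ) q' hq'0 hqz
  refine ⟨Polynomial.toLaurent g, ?_, ?_⟩
  · intro hu
    have h1 : IsUnit (evR z (Polynomial.toLaurent g)) := hu.map (evR z)
    have h2 : evR z (Polynomial.toLaurent g) = 0 := by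
      unfold evR
      rw [LaurentPolynomial.eval₂_toLaurent]
      exact hg
    rw [h2] at h1
    exact not_isUnit_zero h1
  · intro f hf
    obtain ⟨m, f', hf', hfz⟩ := key f (hz f hf)
    have h1 : Polynomial.toLaurent g ∣ Polynomial.toLaurent f' := map_dvd _ (hdvd f' hfz)
    rw [hf'] at h1
    exact ((LaurentPolynomial.isUnit_T (R := O) (m : ℤ)).dvd_mul_right).1 h1

end

end Pool.Agent.B5.Kev
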