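import Pool.Agent.Lib.MP_b5021c_nt.IfaceK1

/-! Row ZPO: the number of zeros in `z` for fixed `w` in the polydisc is one. -/

open Polynomial Filter Topology

namespace Pool.Agent.MP_b5021c_nt.Zpo

open Pool.Agent.MP_b5021c_nt

variable {ι : Type} [Fintype ι] [DecidableEq ι]

theorem eval_mvp (D : Finset ι → ℤ[X]) (w : ι → ℂ) (z : ℂ) :
    (mvp D w).eval z = mv D z w := by
  unfold mvp mv
  rw [eval_finsetSum]
  apply Finset.sum_congr rfl
  intro S _
  rw [eval_mul, eval_C, mul_comm]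
  congr 1
  unfold pv
  rw [aeval_def, eval₂_eq_eval_map]
  rfl

theorem coeff_mvp (D : Finset ι → ℤ[X]) (w : ι → ℂ) (i : ℕ) :
    (mvp D w).coeff i = ∑ S : Finset ι, (∏ j ∈ S, w j) * ((D S).coeff i : ℂ) := by
  unfold mvp
  rw [finsetSum_coeff]
  apply Finset.sum_congr rfl
  intro S _
  rw [coeff_C_mul, coeff_map]
  rfl

theorem mvp_zero (D : Finset ι → ℤ[X]) :
    mvp D (fun _ => 0) = (D ∅).map (Int.castRingHom ℂ) := by
  unfold mvp
  rw [Finset.sum_eq_single ∅]
  · simp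
  · intro S _ hS
    obtain ⟨i, hi⟩ := Finset.nonempty_iff_ne_empty.2 hS
    rw [Finset.prod_eq_zero hi rfl, C_0, zero_mul]
  · intro h
    exact absurd (Finset.mem_univ _) h

theorem nz_oneZero (Q : ℤ[X]) (θ : ℝ) (h : OneZero Q θ) :
    nz (Q.map (Int.castRingHom ℂ)) = 1 := by
  obtain ⟨hθ, -, g, hg, hg2⟩ := h
  have hθ0 : (θ : ℂ) ≠ 0 := by
    exact_mod_cast (by linarith : θ ≠ 0)
  have hlin : (1 - C (θ : ℂ) * X : ℂ[X]) = C (-(θ : ℂ)) * (X - C ((θ : ℂ)⁻¹)) := by
    rw [mul_sub, ← C_mul, neg_mul, mul_inv_cancel₀ hθ0, C_neg, C_neg, C_1]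
    ring
  have hg0 : g ≠ 0 := by
    intro h0
    apply hg2 0 (by simp)
    rw [h0, eval_zero]
  have hne : (1 - C (θ : ℂ) * X : ℂ[X]) ≠ 0 := by
    intro h0
    have : (1 - C (θ : ℂ) * X : ℂ[X]).eval 0 = 0 := by rw [h0, eval_zero]
    simp at this
  unfold nz
  rw [hg, roots_mul (mul_ne_zero hne hg0), Multiset.filter_add, Multiset.card_add, hlin,
    roots_C_mul _ (neg_ne_zero.2 hθ0), roots_X_sub_C]
  have h1 : (g.roots.filter (fun z => ‖z‖ < 1)) = 0 := by
    rw [Multiset.filter_eq_nil]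
    intro z hz hz1
    exact hg2 z hz1.le ((mem_roots hg0).1 hz)
  rw [h1, Multiset.card_zero, add_zero]
  have h2 : ‖(θ : ℂ)⁻¹‖ < 1 := by
    rw [norm_inv, Complex.norm_real, Real.norm_eq_abs, abs_of_pos (by linarith)]
    exact inv_lt_one_of_one_lt₀ hθ
  rw [Multiset.filter_singleton, if_pos h2, Multiset.card_singleton]

theorem zpo (h : ZcoS) : ZpoS := by
  intro ι _ _ D θ hD hQ w hw
  have key := h (fun t : ℝ => mvp D (fun i => (t : ℂ) * w i))
    (Finset.univ.sup fun S => (D S).natDegree) ?_ ?_ ?_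
  · have e0 : mvp D (fun i => ((0 : ℝ) : ℂ) * w i) = (D ∅).map (Int.castRingHom ℂ) := by
      rw [← mvp_zero D]
      congr 1
      funext i
      simp
    have e1 : mvp D (fun i => ((1 : ℝ) : ℂ) * w i) = mvp D w := by
      congr 1
      funext i
      simp
    rw [e0, e1, nz_oneZero _ θ hQ] at key
    exact key.symm
  · intro t _
    unfold mvp
    apply natDegree_sum_le_of_forall_le
    intro S _
    refine (natDegree_C_mul_le _ _).trans ((natDegree_map_le).trans ?_)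
    exact Finset.le_sup (f := fun S => (D S).natDegree) (Finset.mem_univ S)
  · intro i
    apply Continuous.continuousOn
    simp_rw [coeff_mvp]
    fun_prop
  · intro t ht z hz
    rw [eval_mvp]
    apply hD z _ hz
    intro i
    rw [norm_mul, Complex.norm_real, Real.norm_eq_abs, abs_of_nonneg ht.1]
    calc t * ‖w i‖ ≤ 1 * ‖w i‖ := mul_le_mul_of_nonneg_right ht.2 (norm_nonneg _)
      _ < 1 := by rw [one_mul]; exact hw i

end Pool.Agent.MP_b5021c_nt.Zpo
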